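import Pool.Agent.Results.MP_5b6025_nt.DigitsUpToHeight

/-!
# Almost all algebraic numbers contain all digit blocks
-/

set_option autoImplicit false

namespace Pool.Agent.Results.MP_1f559e_nt.AllBlocksAlmostAll

open Finset Polynomial

/-- **For 100% of the real algebraic numbers of degree `d`, ordered by height, all `b^k` blocks of
length `k` occur in the base `b` expansion.** -/
theorem result (d : ℕ) (hd : 2 ≤ d) (b : ℕ) (hb : 2 ≤ b) (k : ℕ) (hk : 1 ≤ k) (η : ℝ)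
    (hη : 0 < η) :
    ∃ H₀ : ℕ, ∀ H : ℕ, H₀ ≤ H →
      {ξ : ℝ | (∃ P : Polynomial ℤ, P.natDegree = d ∧ (∀ i, |P.coeff i| ≤ (H : ℤ)) ∧
          Irreducible (P.map (Int.castRingHom ℚ)) ∧ Polynomial.aeval ξ P = 0) ∧
        ∃ v : ℕ, v < b ^ k ∧ ∀ m : ℕ, ⌊ξ * (b : ℝ) ^ (m + k)⌋ % ((b : ℤ) ^ k) ≠ (v : ℤ)}.Finite ∧
      ({ξ : ℝ | (∃ P : Polynomial ℤ, P.natDegree = d ∧ (∀ i, |P.coeff i| ≤ (H : ℤ)) ∧
          Irreducible (P.map (Int.castRingHom ℚ)) ∧ Polynomial.aeval ξ P = 0) ∧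
        ∃ v : ℕ, v < b ^ k ∧ ∀ m : ℕ,
          ⌊ξ * (b : ℝ) ^ (m + k)⌋ % ((b : ℤ) ^ k) ≠ (v : ℤ)}.ncard : ℝ) ≤
        η * (H : ℝ) ^ (d + 1) := by
  have hB : 2 ≤ b ^ k := by
    calc 2 ≤ b := hb
      _ = b ^ 1 := (pow_one b).symm
      _ ≤ b ^ k := Nat.pow_le_pow_right (by omega) hk
  have hBpos : (0 : ℝ) < ((b ^ k : ℕ) : ℝ) := by
    have : 0 < b ^ k := by omega
    exact_mod_cast this
  obtain ⟨n₀, hn₀⟩ := Pool.Agent.Results.MP_5b6025_nt.DigitsUpToHeight.result d hd (b ^ k) hB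
    (1 / (2 * ((b ^ k : ℕ) : ℝ))) η (by positivity) hη
  refine ⟨(b ^ k) ^ (n₀ + 1), fun H hH => ?_⟩
  have hH1 : 1 ≤ H := le_trans (Nat.pow_pos (by omega)) hH
  obtain ⟨hfin, hcard⟩ := hn₀ H hH1
  have hsub : {ξ : ℝ | (∃ P : Polynomial ℤ, P.natDegree = d ∧ (∀ i, |P.coeff i| ≤ (H : ℤ)) ∧
          Irreducible (P.map (Int.castRingHom ℚ)) ∧ Polynomial.aeval ξ P = 0) ∧
        ∃ v : ℕ, v < b ^ k ∧ ∀ m : ℕ, ⌊ξ * (b : ℝ) ^ (m + k)⌋ % ((b : ℤ) ^ k) ≠ (v : ℤ)} ⊆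
      {ξ : ℝ | (∃ P : Polynomial ℤ, P.natDegree = d ∧ (∀ i, |P.coeff i| ≤ (H : ℤ)) ∧
          Irreducible (P.map (Int.castRingHom ℚ)) ∧ Polynomial.aeval ξ P = 0) ∧
        ∃ N : ℕ, n₀ ≤ N ∧ (b ^ k) ^ N ≤ H ∧ ∃ a : ℕ, a < b ^ k ∧
          1 / (2 * ((b ^ k : ℕ) : ℝ)) * N < |(((Finset.Icc 1 N).filter
            (fun n : ℕ => ⌊ξ * ((b ^ k : ℕ) : ℝ) ^ n⌋ % ((b ^ k : ℕ) : ℤ) = (a : ℤ))).card : ℝ) -
              N / ((b ^ k : ℕ) : ℝ)|} := by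
    rintro ξ ⟨hP, v, hv, hno⟩
    refine ⟨hP, n₀ + 1, by omega, hH, v, hv, ?_⟩
    have hempty : (Finset.Icc 1 (n₀ + 1)).filter
        (fun n : ℕ => ⌊ξ * ((b ^ k : ℕ) : ℝ) ^ n⌋ % ((b ^ k : ℕ) : ℤ) = (v : ℤ)) = ∅ := by
      rw [Finset.filter_eq_empty_iff]
      intro n hn hcon
      rw [Finset.mem_Icc] at hn
      apply hno ((n - 1) * k)
      have e1 : (n - 1) * k + k = k * n := by
        obtain ⟨j, rfl⟩ : ∃ j, n = j + 1 := ⟨n - 1, by omega⟩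
        rw [Nat.add_sub_cancel]
        ring
      rw [e1, pow_mul]
      push_cast at hcon
      exact hcon
    rw [hempty, Finset.card_empty, Nat.cast_zero, zero_sub, abs_neg, abs_of_nonneg (by positivity)]
    have hN : (0 : ℝ) < ((n₀ + 1 : ℕ) : ℝ) := by exact_mod_cast Nat.succ_pos n₀
    rw [one_div, ← div_eq_inv_mul]
    exact div_lt_div_of_pos_left hN hBpos (by linarith)
  refine ⟨hfin.subset hsub, ?_⟩
  have h1 : ({ξ : ℝ | (∃ P : Polynomial ℤ, P.natDegree = d ∧ (∀ i, |P.coeff i| ≤ (H : ℤ)) ∧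
          Irreducible (P.map (Int.castRingHom ℚ)) ∧ Polynomial.aeval ξ P = 0) ∧
        ∃ v : ℕ, v < b ^ k ∧ ∀ m : ℕ,
          ⌊ξ * (b : ℝ) ^ (m + k)⌋ % ((b : ℤ) ^ k) ≠ (v : ℤ)}.ncard : ℝ) ≤ _ :=
    Nat.cast_le.mpr (Set.ncard_le_ncard hsub hfin)
  exact h1.trans hcard

end Pool.Agent.Results.MP_1f559e_nt.AllBlocksAlmostAll
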